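import Pool.Agent.H3.R2.Few

/-!
# Row R2 (one falling coordinate under the height): data, labels, states, statements

Letters of `Pool.R2` (`Tb`, `cs`, `cn`, `sd`). Base: a law `p`, calm coordinates `y`, the falling
coordinate `v`, its leaves `a`, `b` (affine), the height `N` and its leaves `Ga`, `Gb` over the tube
of width `2 ^ (- pv S)` around the sheet of `v`. A label at the depth `s` is an array in `(y, v)` of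
total degree at most `K0` on the box of depth `s`; it is known from `A` and from `B`. A state is a
law of bounded density with labels at all depths.
-/

set_option autoImplicit false

namespace Pool.R2S

open Finset Real
open Pool.Agent.H49.Ent Pool.Agent.H32.Dense Pool.STK
open Pool.JMN (ev tdg)
open Pool.R2 (Tb cs cn sd)

variable {Ω α β τ δ ε : Type} {k K K0 : ℕ}

/-- A point of the cell of the depth `s`. -/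
noncomputable def pc (X s : ℕ) (cap : Fin k → ℕ) (y : Ω → Fin k → ℝ) (ω : Ω) (x : Fin k → ℝ) :
    Fin k → ℝ := fun l => cn X s cap y ω l + sd X s cap l * x l

/-- Two arrays in `(z, w)` differ by at most `2 ^ (- e)` over the cell of the depth `s`, on the
tube of width `2 ^ (- ρ)` around the sheet `a`. -/
def Near {K1 K2 : ℕ} (X s : ℕ) (cap : Fin k → ℕ) (y : Ω → Fin k → ℝ) (ω : Ω)
    (a : (Fin k → Fin (K + 1)) → ℝ) (ρ : ℝ) (F : (Fin (k + 1) → Fin (K1 + 1)) → ℝ)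
    (G : (Fin (k + 1) → Fin (K2 + 1)) → ℝ) (e : ℝ) : Prop :=
  ∀ x : Fin k → ℝ, (∀ l, 0 ≤ x l ∧ x l ≤ 1) → ∀ w : ℝ,
    |w - ev a (pc X s cap y ω x)| ≤ (2 : ℝ) ^ (-ρ) →
    |ev F (Fin.snoc (α := fun _ => ℝ) (pc X s cap y ω x) w) -
      ev G (Fin.snoc (α := fun _ => ℝ) (pc X s cap y ω x) w)| ≤ (2 : ℝ) ^ (-e)

/-- The array `0`. -/
def zr (k K0 : ℕ) : (Fin (k + 1) → Fin (K0 + 1)) → ℝ := fun _ => 0

/-- The slope of an affine sheet. -/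
noncomputable def slp (a : (Fin k → Fin (K + 1)) → ℝ) (l : Fin k) : ℝ :=
  ev a (Pi.single l 1) - ev a 0

/-- The mass of an event. -/
noncomputable def ms [Fintype Ω] (p : Ω → ℝ) (E : Set Ω) : ℝ := by
  classical exact ∑ ω, if ω ∈ E then p ω else 0

/-- **The base.** `cst`: all laws of density at most `1 / cst`; `M + 1`: number of types, `bs`:
separation of their slopes (in bits); `P`: last row; `gE`: row where the tube begins. -/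
structure Base [Fintype Ω] (p : Ω → ℝ) (k K K0 r X S h : ℕ) (pv : ℕ → ℝ) (cap : Fin k → ℕ)
    (A : Ω → α) (B : Ω → β) (W : Ω → τ) (Dz : Ω → ε) (D : Ω → δ) (y : Ω → Fin k → ℝ) (v : Ω → ℝ)
    (a b : Ω → (Fin k → Fin (K + 1)) → ℝ) (N : Ω → ℝ)
    (Ga Gb : Ω → (Fin (k + 1) → Fin (K + 1)) → ℝ) (E P gE M bs : ℕ) (rho : ℕ → ℝ)
    (cst th Lz : ℝ) : Prop where
  law : IsLaw p
  c0 : 0 < cst
  c1 : cst ≤ 1
  tb : ∀ q : Ω → ℝ, IsLaw q → (∀ ω, cst * q ω ≤ p ω) →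
    Tb q k K 1 X S h 0 pv cap A B W Dz D y v a b E th Lz
  pvl : ∀ s ≤ S, |pv s - pv 0 - s * X| ≤ h
  /- the sheets of `v` are affine -/
  afa : ∀ ω, 0 < p ω → ∀ α, 1 < tdg α → a ω α = 0 ∧ b ω α = 0
  /- the leaves of the height -/
  dGa : Det p (fun ω => (A ω, W ω)) Ga
  dGb : Det p (fun ω => (B ω, W ω)) Gb
  nna : ∀ ω, 0 < p ω → |N ω - ev (Ga ω) (Fin.snoc (α := fun _ => ℝ) (y ω) (v ω))| ≤
    (2 : ℝ) ^ (-(P : ℝ) - 2)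
  nnb : ∀ ω, 0 < p ω → |N ω - ev (Gb ω) (Fin.snoc (α := fun _ => ℝ) (y ω) (v ω))| ≤
    (2 : ℝ) ^ (-(P : ℝ) - 2)
  szG : ∀ ω, 0 < p ω → Near X 0 cap y ω (a ω) (pv S) (Ga ω) (zr k K0) (-(h : ℝ)) ∧
    Near X 0 cap y ω (b ω) (pv S) (Gb ω) (zr k K0) (-(h : ℝ))
  /- exhausted coordinates -/
  gGa : ∀ ω, 0 < p ω → ∀ z z' : Fin k → ℝ, ∀ w : ℝ, (∀ l, |z l| ≤ 2) → (∀ l, |z' l| ≤ 2) →
    (∀ l, |z l - z' l| ≤ 2 / 2 ^ (cap l * X)) → |w - ev (a ω) z| ≤ (2 : ℝ) ^ (1 - pv S) →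
    |ev (Ga ω) (Fin.snoc (α := fun _ => ℝ) z w) - ev (Ga ω) (Fin.snoc (α := fun _ => ℝ) z' w)| ≤
      (2 : ℝ) ^ (-(P : ℝ) - 2)
  gGb : ∀ ω, 0 < p ω → ∀ z z' : Fin k → ℝ, ∀ w : ℝ, (∀ l, |z l| ≤ 2) → (∀ l, |z' l| ≤ 2) →
    (∀ l, |z l - z' l| ≤ 2 / 2 ^ (cap l * X)) → |w - ev (b ω) z| ≤ (2 : ℝ) ^ (1 - pv S) →
    |ev (Gb ω) (Fin.snoc (α := fun _ => ℝ) z w) - ev (Gb ω) (Fin.snoc (α := fun _ => ℝ) z' w)| ≤
      (2 : ℝ) ^ (-(P : ℝ) - 2)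
  /- along the thin sheet the height has total degree at most `K0` -/
  thn : ∀ ω, 0 < p ω → ∃ n : (Fin k → Fin (K + 1)) → ℝ, (∀ α, K0 < tdg α → n α = 0) ∧
    ∀ z : Fin k → ℝ, (∀ l, 0 ≤ z l ∧ z l ≤ 1) →
      |ev (Ga ω) (Fin.snoc (α := fun _ => ℝ) z (ev (a ω) z)) - ev n z| ≤ (2 : ℝ) ^ (-(P : ℝ) - 2)
  /- doubling of the leaf minus a label on the tube -/
  dba : ∀ ω, 0 < p ω → ∀ F : (Fin (k + 1) → Fin (K0 + 1)) → ℝ, (∀ α, K0 < tdg α → F α = 0) →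
    ∀ s < S, ∀ e : ℝ, Near X (s + 1) cap y ω (a ω) (pv S) (Ga ω) F e →
      Near X s cap y ω (a ω) (pv S) (Ga ω) F (e - r * X - h)
  dbb : ∀ ω, 0 < p ω → ∀ F : (Fin (k + 1) → Fin (K0 + 1)) → ℝ, (∀ α, K0 < tdg α → F α = 0) →
    ∀ s < S, ∀ e : ℝ, Near X (s + 1) cap y ω (b ω) (pv S) (Gb ω) F e →
      Near X s cap y ω (b ω) (pv S) (Gb ω) F (e - r * X - h)
  /- the row where the tube begins -/
  gEP : gE ≤ P
  loE : ∀ ω, 0 < p ω → ¬ Near X S cap y ω (a ω) (pv S) (Ga ω) (Gb ω) ((gE : ℝ) + h)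
  /- rates of the rows -/
  rm : ∀ n n', n ≤ n' → rho n ≤ rho n'
  rl : ∀ n n', n ≤ n' → rho n' - rho n ≤ (n' : ℝ) - n
  nf : ∀ q : Ω → ℝ, IsLaw q → (∀ ω, cst * q ω ≤ p ω) → ∀ n n', n ≤ n' → n' ≤ P →
    CH q (fun ω => ⌊(2 : ℝ) ^ n' * N ω⌋) (fun ω => (⌊(2 : ℝ) ^ n * N ω⌋, (D ω, W ω))) ≤
      (rho n' - rho n) * Real.log 2 + th
  /- the types: `M + 1` sheets through the exact point, with separated slopes -/
  sep : ∀ E : Set Ω, cst ≤ ms p E → ∃ E' ⊆ E, ms p E ≤ 2 * ms p E' ∧ ∀ ω ∈ E',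
    ∃ f : Fin (M + 1) → Ω, (∀ i, f i ∈ E ∧ 0 < p (f i) ∧ B (f i) = B ω ∧ D (f i) = D ω ∧
      W (f i) = W ω) ∧ ∀ i j, i ≠ j → ∃ l, (2 : ℝ) ^ (-(pv 0) - bs) ≤ |slp (a (f i)) l - slp (a (f j)) l|

/-- **A label at the depth `s` with the precision `G`.** -/
structure Lab (q : Ω → ℝ) (X S h s : ℕ) (pv : ℕ → ℝ) (cap : Fin k → ℕ) (A : Ω → α) (B : Ω → β)
    (W : Ω → τ) (y : Ω → Fin k → ℝ) (a b : Ω → (Fin k → Fin (K + 1)) → ℝ)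
    (Ga Gb : Ω → (Fin (k + 1) → Fin (K + 1)) → ℝ)
    (FA FB : Ω → (Fin (k + 1) → Fin (K0 + 1)) → ℝ) (G : ℕ) : Prop where
  dA : Det q (fun ω => (A ω, (W ω, cs X s cap y ω))) FA
  dB : Det q (fun ω => (B ω, (W ω, cs X s cap y ω))) FB
  dg : ∀ ω, 0 < q ω → ∀ α, K0 < tdg α → FA ω α = 0 ∧ FB ω α = 0
  cl : ∀ ω, 0 < q ω → Near X s cap y ω (a ω) (pv s) (FA ω) (FB ω) ((G : ℝ) - h)
  ta : ∀ ω, 0 < q ω → Near X s cap y ω (a ω) (pv S) (Ga ω) (FA ω) ((G : ℝ) - h)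
  tb : ∀ ω, 0 < q ω → Near X s cap y ω (b ω) (pv S) (Gb ω) (FB ω) ((G : ℝ) - h)

/-- **A state**: a law `q` of density at most `1 / c` and labels at all depths. -/
structure St [Fintype Ω] (p : Ω → ℝ) (c : ℝ) (q : Ω → ℝ) (X S h : ℕ) (pv : ℕ → ℝ)
    (cap : Fin k → ℕ) (A : Ω → α) (B : Ω → β) (W : Ω → τ) (y : Ω → Fin k → ℝ)
    (a b : Ω → (Fin k → Fin (K + 1)) → ℝ) (Ga Gb : Ω → (Fin (k + 1) → Fin (K + 1)) → ℝ)
    (FA FB : ℕ → Ω → (Fin (k + 1) → Fin (K0 + 1)) → ℝ) (G : ℕ → ℕ) : Prop where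
  law : IsLaw q
  den : ∀ ω, c * q ω ≤ p ω
  mon : ∀ s < S, G s ≤ G (s + 1)
  lab : ∀ s ≤ S, Lab q X S h s pv cap A B W y a b Ga Gb (FA s) (FB s) (G s)

/-- **An improvement at the depth `s`**: a law `q' ≤ q / c'` and a label of the precision `g`. -/
def Imp [Fintype Ω] (K0 : ℕ) (c' : ℝ) (q : Ω → ℝ) (X S h s : ℕ) (pv : ℕ → ℝ) (cap : Fin k → ℕ)
    (A : Ω → α) (B : Ω → β) (W : Ω → τ) (y : Ω → Fin k → ℝ)
    (a b : Ω → (Fin k → Fin (K + 1)) → ℝ) (Ga Gb : Ω → (Fin (k + 1) → Fin (K + 1)) → ℝ)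
    (g : ℕ) : Prop :=
  ∃ q' : Ω → ℝ, IsLaw q' ∧ (∀ ω, c' * q' ω ≤ q ω) ∧
    ∃ FA FB : Ω → (Fin (k + 1) → Fin (K0 + 1)) → ℝ,
      Lab q' X S h s pv cap A B W y a b Ga Gb FA FB g

/-- The nonfull part of the first `n` rows. -/
def bad (rho : ℕ → ℝ) (n : ℕ) : ℝ := n - rho n

/-- **(J) JUMP.** A long step of the labels with a positive part of nonfull rows gives an
improvement. -/
def JStm (k K K0 r : ℕ) : Prop :=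
  ∀ θ : ℝ, 0 < θ → ∃ (KJ : ℕ) (c' C : ℝ), 0 < c' ∧ 0 ≤ C ∧
  ∀ {Ω α β τ δ ε : Type} [Fintype Ω] {p : Ω → ℝ} {X S h : ℕ} {pv : ℕ → ℝ} {cap : Fin k → ℕ}
    {A : Ω → α} {B : Ω → β} {W : Ω → τ} {Dz : Ω → ε} {D : Ω → δ} {y : Ω → Fin k → ℝ} {v : Ω → ℝ}
    {a b : Ω → (Fin k → Fin (K + 1)) → ℝ} {N : Ω → ℝ}
    {Ga Gb : Ω → (Fin (k + 1) → Fin (K + 1)) → ℝ} {E P gE M bs : ℕ} {rho : ℕ → ℝ}
    {cst th Lz : ℝ},
    Base p k K K0 r X S h pv cap A B W Dz D y v a b N Ga Gb E P gE M bs rho cst th Lz →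
    C * (((S : ℝ) + 1) * (th + 1 + h)) ≤ X →
    ∀ {c : ℝ} {q : Ω → ℝ} {FA FB : ℕ → Ω → (Fin (k + 1) → Fin (K0 + 1)) → ℝ} {G : ℕ → ℕ},
    St p c q X S h pv cap A B W y a b Ga Gb FA FB G → cst ≤ c * c' →
    ∀ s < S, G s + KJ * X ≤ G (s + 1) → G (s + 1) ≤ P →
      θ * ((G (s + 1) : ℝ) - G s) ≤ bad rho (G (s + 1)) - bad rho (G s) →
      Imp K0 c' q X S h s pv cap A B W y a b Ga Gb (G s + X)

/-- **(B) BLOCK.** A block on which the labels have constant slope, with a positive density of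
nonfull rows at all places, gives an improvement. -/
def BStm (k K K0 r : ℕ) : Prop :=
  ∀ c₀ Kg : ℝ, 0 < c₀ → ∃ (ι κ c' : ℝ) (m₀ M : ℕ), 0 < ι ∧ 0 < κ ∧ 0 < c' ∧
  ∀ m₁ : ℕ, ∃ C : ℝ, 0 ≤ C ∧
  ∀ {Ω α β τ δ ε : Type} [Fintype Ω] {p : Ω → ℝ} {X S h : ℕ} {pv : ℕ → ℝ} {cap : Fin k → ℕ}
    {A : Ω → α} {B : Ω → β} {W : Ω → τ} {Dz : Ω → ε} {D : Ω → δ} {y : Ω → Fin k → ℝ} {v : Ω → ℝ}
    {a b : Ω → (Fin k → Fin (K + 1)) → ℝ} {N : Ω → ℝ}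
    {Ga Gb : Ω → (Fin (k + 1) → Fin (K + 1)) → ℝ} {E P gE bs : ℕ} {rho : ℕ → ℝ}
    {cst th Lz : ℝ},
    Base p k K K0 r X S h pv cap A B W Dz D y v a b N Ga Gb E P gE M bs rho cst th Lz →
    C * (((S : ℝ) + 1) * (th + 1 + h) + bs) ≤ X →
    ∀ {c : ℝ} {q : Ω → ℝ} {FA FB : ℕ → Ω → (Fin (k + 1) → Fin (K0 + 1)) → ℝ} {G : ℕ → ℕ},
    St p c q X S h pv cap A B W y a b Ga Gb FA FB G → cst ≤ c * c' →
    ∀ (s₀ m : ℕ) (lg : ℝ), m₀ ≤ m → m ≤ m₁ → s₀ + m ≤ S → G (s₀ + m) ≤ P → 0 ≤ lg → lg ≤ Kg →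
      (∀ s ≤ m, |(G (s₀ + s) : ℝ) - G s₀ - lg * s * X| ≤ ι * m * X) →
      (∀ s s', s ≤ s' → s' ≤ m → κ * m ≤ (s' : ℝ) - s →
        c₀ * ((s' : ℝ) - s) * X ≤ bad rho (G (s₀ + s')) - bad rho (G (s₀ + s))) →
      ∃ s, s₀ ≤ s ∧ s ≤ s₀ + m ∧ Imp K0 c' q X S h s pv cap A B W y a b Ga Gb (G s + X)

end Pool.R2S
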